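import Pool.Agent.H19.QF.All

/-!
# Hall's conjecture for elliptic curves with a 5-isogeny over a number field with few ramified primes

Hall's conjecture is a statement on the elliptic curves `E : Y² = X³ - 3 x X + 2 y`, `y² = x³ + k`, whose
discriminant is `- 1728 k`. Let `T` be a finite set of primes. Hall's inequality `max(|x|, |y|) ≤ C |k|³` holds,
with a constant which depends on `T` only, for all integers `x`, `y` such that

* `E` has an isogeny of degree `5` over some number field `K` (of any degree) which is unramified outside `T`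
  (first part), or, in terms of the coordinate `z` of `X_0(5)`, some root `z` of
  `k (z² + 10 z + 5)³ + 1728 x³ z` lies in such a field `K`; if this polynomial is irreducible over `ℚ`, then
  even `|x| ≤ c |k| ^ (1 + ε)` for every `ε > 0` (second part, `ε = 1 / N`);
* `k = u m⁵`, where all primes which divide `u` or both `x` and `y` belong to `T` (third part); this class is
  infinite already for `T = {2, 3, 5}`, `k = 1728 m⁵` (fourth part, Klein's identity).

For `K = ℚ` the exponent `3` is optimal (hand-in RationalFiveIsogenies).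

Definitions used: from `Pool.Agent.H67.Hall.Group`, `QQ` is the algebraic closure of `ℚ` and `curve x y` is the
curve `E` over `ℚ`; from `Pool.Agent.H19.QF.Group`, `HasSubgroupOver W K n`: there is a subgroup of order `n` of
the group of points of `W` over `QQ` which is stable under all automorphisms of `QQ` that fix the elements of `K`.

Proof. (a) If `(x, y)` is minimal with respect to twists by `p` and `p ∤ 30` is unramified in the field of a root
`z` of degree six, then the valuations of `z`, `z² + 10 z + 5`, `z² + 22 z + 125` and `z² + 4 z - 1` at the primes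
above `p`, which have ramification index one, and the traces of `z` and `z² + 22 z + 125`, show that `p` does not
divide both `x` and `y` and that `5` divides the exponent of `p` in `k`. So the first class reduces to the second.
(b) With `M = u² m`, `X = u³ x` the polynomial `V⁶ + 10 M V³ + 12 X V + 5 M²` has discriminant
`- 5⁵ 1728² u¹⁸ y⁴`; let `V` be a root of degree six. The element
`72 (M X V⁴ + M³ V³ - 2 X² V² + 7 M² X V + 5 M⁴) / y` is integral too, so that the discriminant of the field
`ℚ(V)` divides two numbers whose greatest common divisor is bounded. By Hermite's theorem `ℚ(V)` is one of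
finitely many fields. If `M` is small, one conjugate of `V` is very small and the five others are close to the
vertices of a regular pentagon; so the coordinates of `V` in an integral basis are close to a multiple of a
fixed vector of algebraic numbers, which is not proportional to a rational one, and Roth's theorem gives a lower
bound for `M`. (c) If the degree is less than six, the inequality is the case of a reducible fibre, treated in
`Pool.Agent.H67.Hall` by Runge's method, or a consequence of the norm of the small root.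
-/

namespace Pool.Agent.Results.MP_f2148a_nt.FiveIsogeniesOverNumberFields

open Polynomial NumberField Pool.Agent.H67.Hall Pool.Agent.H19.QF

theorem result :
    -- (1) subgroups of order five stable under the Galois group of `K`
    (∀ T : Finset ℕ, ∃ C : ℝ, ∀ (K : IntermediateField ℚ QQ) [NumberField K],
      (∀ p : ℕ, p.Prime → (p : ℤ) ∣ discr K → p ∈ T) →
      ∀ x y k : ℤ, k ≠ 0 → y ^ 2 = x ^ 3 + k → HasSubgroupOver (curve x y) K 5 →
      max |(x : ℝ)| |(y : ℝ)| ≤ C * |(k : ℝ)| ^ 3) ∧
    -- (2) roots of the fibre polynomial in `K`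
    (∀ (T : Finset ℕ) (N : ℕ), ∃ C : ℝ, ∀ (K : Type) [Field K] [NumberField K],
      (∀ p : ℕ, p.Prime → (p : ℤ) ∣ discr K → p ∈ T) →
      ∀ x y k : ℤ, k ≠ 0 → y ^ 2 = x ^ 3 + k →
      (∃ z : K, (k : K) * (z ^ 2 + 10 * z + 5) ^ 3 + 1728 * x ^ 3 * z = 0) →
      max |(x : ℝ)| |(y : ℝ)| ≤ C * |(k : ℝ)| ^ 3 ∧
      (Irreducible (Polynomial.C (k : ℚ) * (X ^ 2 + 10 * X + 5) ^ 3 +
          Polynomial.C (1728 * (x : ℚ) ^ 3) * X : ℚ[X]) →
        |(x : ℝ)| ^ N ≤ C * |(k : ℝ)| ^ (N + 1))) ∧
    -- (3) fifth powers times units outside `T`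
    (∀ T : Finset ℕ, (∀ p ∈ T, p.Prime) → ∃ C : ℝ, ∀ x y k u m : ℤ, k ≠ 0 → y ^ 2 = x ^ 3 + k →
      k = u * m ^ 5 → (∀ p : ℕ, p.Prime → (p : ℤ) ∣ u → p ∈ T) →
      (∀ p : ℕ, p.Prime → (p : ℤ) ∣ x → (p : ℤ) ∣ y → p ∈ T) →
      max |(x : ℝ)| |(y : ℝ)| ≤ C * |(k : ℝ)| ^ 3) ∧
    -- (4) infinitely many points in the class (3)
    (∀ N : ℤ, ∃ x y m : ℤ, N ≤ x ∧ m ≠ 0 ∧ y ^ 2 = x ^ 3 + 1728 * m ^ 5 ∧
      ∀ p : ℕ, p.Prime → (p : ℤ) ∣ x → (p : ℤ) ∣ y → p ∈ ({2, 3, 5} : Finset ℕ)) := by
  refine ⟨fun T => ?_, fun T N => ?_, fifth, klein_family⟩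
  · obtain ⟨C, hC⟩ := main T
    exact ⟨C, fun K _ hK x y k hk0 heq hH => hC K hK x y k hk0 heq (exists_root heq hH)⟩
  · obtain ⟨C₁, h1⟩ := main T
    obtain ⟨C₂, h2⟩ := strong T N
    refine ⟨max C₁ C₂, fun K _ _ hK x y k hk0 heq hz => ⟨?_, fun hirr => ?_⟩⟩
    · exact (h1 K hK x y k hk0 heq hz).trans
        (mul_le_mul_of_nonneg_right (le_max_left _ _) (by positivity))
    · exact (h2 K hK x y k hk0 heq hz hirr).trans
        (mul_le_mul_of_nonneg_right (le_max_right _ _) (by positivity))

end Pool.Agent.Results.MP_f2148a_nt.FiveIsogeniesOverNumberFields
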