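import Pool.Agent.H19.FI.Family

/-!
# Hall's conjecture for elliptic curves with a rational isogeny of degree five

Hall's conjecture is a statement on the elliptic curves `Y² = X³ - 3 x X + 2 y`, whose discriminant is
`1728 (x³ - y²)`. It is proved here, with an explicit constant, for all integers `x`, `y` such that this
curve has a rational isogeny of degree `5`, that is a subgroup of order `5` of the group of points over the
algebraic closure of `ℚ` which is stable under the Galois group. The exponent `3` cannot be improved in this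
class, and the constant must be at least `1`: the class contains an infinite family with
`max(|x|, |y|) > |k|³`, which is the extremal family of Danilov and Elkies.

From `Pool.Agent.H19.FI.Group`: `curve x y` is the curve `Y² = X³ - 3 x X + 2 y` over `ℚ`;
`HasRationalSubgroup W n`: there is a subgroup of order `n` of the group of the points of `W` over the
algebraic closure of `ℚ` which is stable under all automorphisms of the algebraic closure.
-/

namespace Pool.Agent.Results.MP_f2148a_nt.RationalFiveIsogenies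

open Pool.Agent.H19.FI

theorem result :
    (∀ x y k : ℤ, k ≠ 0 → y ^ 2 = x ^ 3 + k → HasRationalSubgroup (curve x y) 5 →
      |x| ≤ 4167 * |k| ^ 2 ∧ max |x| |y| ≤ 269000 * |k| ^ 3) ∧
    ∀ N : ℤ, ∃ x y k : ℤ, N ≤ |x| ∧ k ≠ 0 ∧ y ^ 2 = x ^ 3 + k ∧
      HasRationalSubgroup (curve x y) 5 ∧ |k| ^ 3 < max |x| |y| := by
  refine ⟨?_, family⟩
  intro x y k hk hxy hH
  obtain ⟨σ, w, h1, h2⟩ := exists_param hH
  have hx : |x| ≤ 4167 * k ^ 2 := bound_of_param hk hxy h1 h2
  have hk1 : 1 ≤ |k| := Int.one_le_abs hk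
  have hk2 : |k| ^ 2 = k ^ 2 := sq_abs k
  refine ⟨by rw [hk2]; exact hx, max_le ?_ ?_⟩
  · calc |x| ≤ 4167 * |k| ^ 2 := by rw [hk2]; exact hx
      _ ≤ 269000 * |k| ^ 3 := by nlinarith [pow_pos (by linarith : 0 < |k|) 2]
  · apply le_of_sq_le_sq _ (by positivity)
    have h3 : |y| ^ 2 = x ^ 3 + k := by rw [sq_abs, hxy]
    have h4 : x ^ 3 ≤ |x| ^ 3 := by rw [← abs_pow]; exact le_abs_self _
    have h5 : |x| ^ 3 ≤ (4167 * |k| ^ 2) ^ 3 :=
      pow_le_pow_left₀ (abs_nonneg _) (by rw [hk2]; exact hx) 3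
    have h6 : k ≤ |k| := le_abs_self k
    have h7 : |k| ≤ |k| ^ 6 := by
      calc |k| = |k| ^ 1 := (pow_one _).symm
        _ ≤ |k| ^ 6 := pow_le_pow_right₀ hk1 (by norm_num)
    rw [h3]
    have h8 : (0 : ℤ) ≤ |k| ^ 6 := by positivity
    calc x ^ 3 + k ≤ (4167 * |k| ^ 2) ^ 3 + |k| ^ 6 := by linarith
      _ = (4167 ^ 3 + 1) * |k| ^ 6 := by ring
      _ ≤ 269000 ^ 2 * |k| ^ 6 := by nlinarith
      _ = (269000 * |k| ^ 3) ^ 2 := by ring

end Pool.Agent.Results.MP_f2148a_nt.RationalFiveIsogenies
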