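import Pool.Agent.H67.Hall.Transitive

/-!
# Hall's conjecture: reducible fibres and non-transitive torsion

Hall's conjecture is a statement on the elliptic curves `Y² = X³ - 3 x X + 2 y`, of `j`-invariant
`1728 x³ / (x³ - y²)`. It is proved here, by Runge's method, for all integers `x`, `y` such that

* the Galois group does not act transitively on the six subgroups of order `5` of this curve (with an
  explicit constant), or
* more generally, for a fixed rational function `P / Q` over `ℚ` with a simple pole at a rational point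
  (`0`), the fibre of `P / Q` over `x³ / (x³ - y²)` decomposes over `ℚ` into parts of degree at most `5 / 6`
  of the degree `d` of `P / Q`; for parts of degree at most `d - n` a polynomial bound is obtained.

The second statement applies to the `j`-maps of all curves `X_0(N)` of genus `0`, which parametrise the
cyclic isogenies of degree `N`; the cases `N = 7` and `N = 13` are written out.

From `Pool.Agent.H67.Hall.Group`: `curve x y` is the curve `Y² = X³ - 3 x X + 2 y` over `ℚ`;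
`GaloisTransitive W n`: any two subgroups of order `n` of the group of the points of `W` over the algebraic
closure of `ℚ` are conjugate under the Galois group.
-/

namespace Pool.Agent.Results.MP_f2148a_nt.ReducibleFibres

open Polynomial Pool.Agent.H67.Hall

theorem result :
    -- (1) The Galois action on the subgroups of order five is not transitive.
    (∀ x y k : ℤ, k ≠ 0 → y ^ 2 = x ^ 3 + k → ¬ GaloisTransitive (curve x y) 5 →
      |x| ≤ 400000 * |k| ^ 2 ∧ max |x| |y| ≤ 240000000 * |k| ^ 3) ∧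
    -- (2) Fibres of rational functions with a simple rational pole.
    (∀ P Q : ℤ[X], IsCoprime (P.map (Int.castRingHom ℚ)) (Q.map (Int.castRingHom ℚ)) →
      Q.eval 0 = 0 → (derivative Q).eval 0 ≠ 0 → ∀ d, d = max P.natDegree Q.natDegree →
      ∃ c : ℝ, ∀ x y k : ℤ, k ≠ 0 → y ^ 2 = x ^ 3 + k → ∀ n ≤ d,
        (∀ G : ℚ[X], Irreducible G →
          G ∣ (C (x ^ 3) * Q - C (x ^ 3 - y ^ 2) * P).map (Int.castRingHom ℚ) →
          G.natDegree ≤ d - n) →
        |(x : ℝ)| ^ (3 * n) ≤ c * |(k : ℝ)| ^ d ∧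
          (d ≤ 6 * n → max |(x : ℝ)| |(y : ℝ)| ≤ c * |(k : ℝ)| ^ 3)) ∧
    -- (3) Points of degree `2, …, 6` on `X_0(7)`.
    (∃ c : ℝ, ∀ x y k : ℤ, k ≠ 0 → y ^ 2 = x ^ 3 + k → ∀ z : ℂ,
      1728 * (x : ℂ) ^ 3 * z = (x ^ 3 - y ^ 2) * ((z ^ 2 + 13 * z + 49) * (z ^ 2 + 5 * z + 1) ^ 3) →
      2 ≤ (minpoly ℚ z).natDegree → (minpoly ℚ z).natDegree ≤ 6 →
      max |(x : ℝ)| |(y : ℝ)| ≤ c * |(k : ℝ)| ^ 3) ∧
    -- (4) Points of degree `3, …, 11` on `X_0(13)`.
    (∃ c : ℝ, ∀ x y k : ℤ, k ≠ 0 → y ^ 2 = x ^ 3 + k → ∀ z : ℂ,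
      1728 * (x : ℂ) ^ 3 * z = (x ^ 3 - y ^ 2) *
        ((z ^ 2 + 5 * z + 13) * (z ^ 4 + 7 * z ^ 3 + 20 * z ^ 2 + 19 * z + 1) ^ 3) →
      3 ≤ (minpoly ℚ z).natDegree → (minpoly ℚ z).natDegree ≤ 11 →
      max |(x : ℝ)| |(y : ℝ)| ≤ c * |(k : ℝ)| ^ 3) := by
  refine ⟨?_, ?_, ?_, ?_⟩
  · intro x y k hk hxy hT
    rw [sq_abs]
    exact five hk hxy hT
  · intro P Q hcop hQ0 hQ1 d hd
    obtain ⟨c, hc⟩ := general P Q hcop hQ0 hQ1 hd
    refine ⟨c, ?_⟩
    intro x y k hk hxy n hn hirr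
    refine hc x y k hk hxy n hn ?_
    intro G hG hdvd
    have h1 : C k * P + C (x ^ 3) * Q = C (x ^ 3) * Q - C (x ^ 3 - y ^ 2) * P := by
      rw [show x ^ 3 - y ^ 2 = -k by rw [hxy]; ring, C_neg]; ring
    rw [h1] at hdvd
    have := hirr G hG hdvd
    omega
  · set P : ℤ[X] := (X ^ 2 + 13 * X + 49) * (X ^ 2 + 5 * X + 1) ^ 3 with hP
    have hP' : P = X ^ 8 + 28 * X ^ 7 + 322 * X ^ 6 + 1904 * X ^ 5 + 5915 * X ^ 4 + 8624 * X ^ 3 +
        4018 * X ^ 2 + 748 * X + 49 := by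
      rw [hP]; ring
    have hPd : P.natDegree = 8 := by
      rw [hP']; compute_degree!
    obtain ⟨c, hc⟩ := haupt_general P (by simp [hP]) hPd (by norm_num)
    refine ⟨c, fun x y k hk hxy z hz h1 h2 => hc x y k hk hxy z ?_ (by omega) (by omega)⟩
    rw [hz]
    simp only [hP, map_add, map_mul, map_pow, aeval_X, map_ofNat, map_one]
  · set P : ℤ[X] := (X ^ 2 + 5 * X + 13) * (X ^ 4 + 7 * X ^ 3 + 20 * X ^ 2 + 19 * X + 1) ^ 3 with hP
    have hP' : P = X ^ 14 + 26 * X ^ 13 + 325 * X ^ 12 + 2548 * X ^ 11 + 13832 * X ^ 10 + 54340 * X ^ 9 +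
        157118 * X ^ 8 + 333580 * X ^ 7 + 509366 * X ^ 6 + 534820 * X ^ 5 + 354536 * X ^ 4 +
        124852 * X ^ 3 + 15145 * X ^ 2 + 746 * X + 13 := by
      rw [hP]; ring
    have hPd : P.natDegree = 14 := by
      rw [hP']; compute_degree!
    obtain ⟨c, hc⟩ := haupt_general P (by simp [hP]) hPd (by norm_num)
    refine ⟨c, fun x y k hk hxy z hz h1 h2 => hc x y k hk hxy z ?_ (by omega) (by omega)⟩
    rw [hz]
    simp only [hP, map_add, map_mul, map_pow, aeval_X, map_ofNat, map_one]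

end Pool.Agent.Results.MP_f2148a_nt.ReducibleFibres
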