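import Pool.Agent.H19.FO.Coprime

/-!
# Hall's conjecture for the values of binary forms, and along rational curves in the line of the `j`-invariants

From Mathlib: `P.homogenize d` is the binary form of degree `d` with `P.homogenize d (s, 1) = P (s)`;
`P.map (Int.castRingHom ℚ)` is `P` as a polynomial over `ℚ`.

1. Let `F`, `G` be binary forms of degrees `2 n` and `3 n` with integral coefficients and without a common zero
   in the projective line over the complex numbers, `n ≥ 1`. Hall's inequality holds, with a constant `C` that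
   depends on `F` and `G` only, for all integral points `(x, y)` on all the curves `y² = x³ + k`, `k ≠ 0`, with
   `x³ / y² = F(s, t)³ / G(s, t)²` for some integers `s`, `t`. For example `x = F(s, t)`, `y = G(s, t)`.
2. More generally let `j = A / B` be a non-constant rational function of degree `d`, with coprime polynomials
   `A`, `B`, such that the orders `e` of the REAL poles `c` of `j` satisfy `min (m, 2) e ≤ (5 / 6) d`, `m` the
   degree of `c` over `ℚ` (and `<` if `m ≥ 3`). Then Hall's inequality holds for all integral points with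
   `x³ / (x³ - y²) = j(c)` for some `c` in the projective line over `ℚ`.
-/

namespace Pool.Agent.Results.MP_f2148a_nt.ValuesOfBinaryForms

open Polynomial

/-- The value at `(s, t)` of the form of degree `d` which belongs to `P`. -/
noncomputable def value (P : ℤ[X]) (d : ℕ) (s t : ℤ) : ℤ := MvPolynomial.eval ![s, t] (P.homogenize d)

/-- The condition on the zeros in the real projective line of the form of degree `d` which belongs to `B`:
`d - B.natDegree` is the order of the zero at infinity, and `p` runs through the minimal polynomials of the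
finite real zeros. -/
def MildZeros (B : ℚ[X]) (d : ℕ) : Prop :=
  6 * (d - B.natDegree) ≤ 5 * d ∧
    ∀ p : ℚ[X], Irreducible p → (∃ c : ℝ, aeval c p = 0) → ∀ e : ℕ, p ^ e ∣ B →
      (p.natDegree ≤ 2 → 6 * (p.natDegree * e) ≤ 5 * d) ∧ (3 ≤ p.natDegree → e ≠ 0 → 12 * e < 5 * d)

theorem result :
    (∀ (n : ℕ) (F G : ℤ[X]), 0 < n → F.natDegree ≤ 2 * n → G.natDegree ≤ 3 * n →
      (F.coeff (2 * n) ≠ 0 ∨ G.coeff (3 * n) ≠ 0) →
      IsCoprime (F.map (Int.castRingHom ℚ)) (G.map (Int.castRingHom ℚ)) →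
      ∃ C : ℝ, ∀ x y k s t : ℤ, k ≠ 0 → y ^ 2 = x ^ 3 + k → ¬ (s = 0 ∧ t = 0) →
        x ^ 3 * value G (3 * n) s t ^ 2 = y ^ 2 * value F (2 * n) s t ^ 3 →
          max |(x : ℝ)| |(y : ℝ)| ≤ C * |(k : ℝ)| ^ 3) ∧
    (∀ (d : ℕ) (A B : ℤ[X]), A.natDegree ≤ d → B.natDegree ≤ d →
      (A.coeff d ≠ 0 ∨ B.coeff d ≠ 0) → B ≠ 0 →
      IsCoprime (A.map (Int.castRingHom ℚ)) (B.map (Int.castRingHom ℚ)) →
      MildZeros (B.map (Int.castRingHom ℚ)) d →
      ∃ C : ℝ, ∀ x y k s t : ℤ, k ≠ 0 → y ^ 2 = x ^ 3 + k → ¬ (s = 0 ∧ t = 0) →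
        x ^ 3 * value B d s t = (x ^ 3 - y ^ 2) * value A d s t →
          max |(x : ℝ)| |(y : ℝ)| ≤ C * |(k : ℝ)| ^ 3) := by
  constructor
  · intro n F G hn hF hG hmax hcop
    obtain ⟨C, _, h⟩ := Pool.Agent.H19.FO.hall_forms hn hF hG hmax hcop
    exact ⟨C, h⟩
  · intro d A B hA hB hmax hB0 hcop hM
    obtain ⟨C, _, h⟩ := Pool.Agent.H19.FO.hall_general hA hB hmax hcop hB0 hM
    refine ⟨C, fun x y k s t hk hxy hst hx => h x y k s t hk hxy hst ?_⟩
    have hk' : x ^ 3 - y ^ 2 = -k := by linarith
    rw [hk'] at hx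
    exact hx

end Pool.Agent.Results.MP_f2148a_nt.ValuesOfBinaryForms
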